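import Pool.Agent.Helper68.LM.St

/-!
# Project LM, module W11: weak type (1,1) from the Calderon-Zygmund decomposition
-/

set_option autoImplicit false

open MeasureTheory Set Filter Topology
open scoped ENNReal RealInnerProductSpace FourierTransform

namespace Pool.Agent.Helper81.LM

open Pool.Agent.Helper68.LM

/-! ## Elementary facts -/

theorem integrable_ph : Integrable ph := by
  have hc : Continuous (fun x : Pl => max 0 (1 - ‖x‖)) := by fun_prop
  have hs : HasCompactSupport (fun x : Pl => max 0 (1 - ‖x‖)) := by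
    apply HasCompactSupport.of_support_subset_isCompact (isCompact_closedBall (0 : Pl) 1)
    intro x hx
    rw [Function.mem_support] at hx
    rw [mem_closedBall_zero_iff]
    by_contra h
    push Not at h
    exact hx (max_eq_left (by linarith))
  exact (hc.integrable_of_hasCompactSupport hs).const_mul _

theorem ph_nonneg (x : Pl) : 0 ≤ ph x := by
  unfold ph
  refine mul_nonneg (inv_nonneg.2 ?_) (le_max_left _ _)
  exact integral_nonneg fun z => le_max_left _ _

theorem bb_zero : BB (fun _ => (0 : ℝ)) := ⟨measurable_const, 0, by simp, by simp⟩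

theorem bb_add {g h : Pl → ℝ} (hg : BB g) (hh : BB h) : BB (fun x => g x + h x) := by
  obtain ⟨mg, K, hK, hK'⟩ := hg
  obtain ⟨mh, K', hL, hL'⟩ := hh
  have k0 : 0 ≤ K := le_trans (abs_nonneg _) (hK 0)
  have k1 : 0 ≤ K' := le_trans (abs_nonneg _) (hL 0)
  refine ⟨mg.add mh, K + K', fun x => ?_, fun x hx => ?_⟩
  · exact (abs_add_le _ _).trans (add_le_add (hK x) (hL x))
  · show g x + h x = 0
    rw [hK' x (by linarith), hL' x (by linarith), add_zero]

theorem bb_sum {b : ℕ → Pl → ℝ} (hb : ∀ i, BB (b i)) (m : ℕ) :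
    BB (fun x => ∑ i ∈ Finset.range m, b i x) := by
  induction m with
  | zero => simpa using bb_zero
  | succ m ih =>
    have := bb_add ih (hb m)
    simpa only [Finset.sum_range_succ] using this

theorem dk_zero (ν : Measure Pl) (a b : ℕ) (k : ℤ) (x : Pl) : Dk ν a b k (fun _ => 0) x = 0 := by
  simp [Dk, Av, Sm]

theorem dk_zero' (ν : Measure Pl) (a b : ℕ) (k : ℤ) (g : Pl → ℝ) (hg : ∀ x, g x = 0) (x : Pl) :
    Dk ν a b k g x = 0 := by
  have : g = fun _ => 0 := funext hg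
  rw [this]; exact dk_zero ν a b k x

theorem dk_add (hBBC : StBBC) {ν : Measure Pl} {R L : ℝ} (hν : Bd R L ν) (a b : ℕ) (k : ℤ)
    {g h : Pl → ℝ} (hg : BB g) (hh : BB h) (x : Pl) :
    Dk ν a b k (fun y => g y + h y) x = Dk ν a b k g x + Dk ν a b k h x := by
  obtain ⟨B1, B2, B3, B4, B5, B6, B7⟩ := hBBC
  have e : (fun x => Sm ((2 : ℝ) ^ (k - (a : ℤ))) (fun y => g y + h y) x -
      Sm ((2 : ℝ) ^ (k - (b : ℤ))) (fun y => g y + h y) x) =
      fun x => (Sm ((2 : ℝ) ^ (k - (a : ℤ))) g x - Sm ((2 : ℝ) ^ (k - (b : ℤ))) g x) +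
        (Sm ((2 : ℝ) ^ (k - (a : ℤ))) h x - Sm ((2 : ℝ) ^ (k - (b : ℤ))) h x) := by
    funext x
    rw [B6 g h _ x hg hh, B6 g h _ x hg hh]; ring
  unfold Dk
  rw [e]
  exact B7 ν R L _ _ _ x hν (B1 _ _ (B2 _ _ hg) (B2 _ _ hg)) (B1 _ _ (B2 _ _ hh) (B2 _ _ hh))

theorem dk_sum (hBBC : StBBC) {ν : Measure Pl} {R L : ℝ} (hν : Bd R L ν) (a c : ℕ) (k : ℤ)
    {b : ℕ → Pl → ℝ} (hb : ∀ i, BB (b i)) (m : ℕ) (x : Pl) :
    Dk ν a c k (fun y => ∑ i ∈ Finset.range m, b i y) x =
      ∑ i ∈ Finset.range m, Dk ν a c k (b i) x := by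
  induction m with
  | zero => simpa using dk_zero ν a c k x
  | succ m ih =>
    have e : (fun y => ∑ i ∈ Finset.range (m + 1), b i y) =
        fun y => (∑ i ∈ Finset.range m, b i y) + b m y := by
      funext y; rw [Finset.sum_range_succ]
    rw [e, dk_add hBBC hν a c k (bb_sum hb m) (hb m) x, ih, Finset.sum_range_succ]

theorem sm_tendsto {f : ℕ → Pl → ℝ} {h : Pl → ℝ} {K s : ℝ} (hs : 0 < s)
    (hf : ∀ m, Measurable (f m)) (hK : ∀ m x, |f m x| ≤ K)
    (hlim : ∀ᵐ x, Tendsto (fun m => f m x) atTop (𝓝 (h x))) (y : Pl) :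
    Tendsto (fun m => Sm s (f m) y) atTop (𝓝 (Sm s h y)) := by
  unfold Sm
  have hq : Measure.QuasiMeasurePreserving (fun z : Pl => y - s • z) volume volume := by
    have h1 : Measure.QuasiMeasurePreserving (fun z : Pl => s • z) volume volume :=
      Measure.quasiMeasurePreserving_smul volume hs.ne'
    exact (quasiMeasurePreserving_sub_left_of_right_invariant volume y).comp h1
  apply tendsto_integral_of_dominated_convergence (fun z => ph z * K)
  · intro m
    exact integrable_ph.aestronglyMeasurable.mul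
      ((hf m).comp hq.measurable).aestronglyMeasurable
  · exact integrable_ph.mul_const K
  · intro m
    refine Eventually.of_forall fun z => ?_
    rw [norm_mul, Real.norm_of_nonneg (ph_nonneg z), Real.norm_eq_abs]
    exact mul_le_mul_of_nonneg_left (hK m _) (ph_nonneg z)
  · filter_upwards [hq.ae hlim] with z hz
    exact hz.const_mul _

theorem dk_tendsto (hBBC : StBBC) {ν : Measure Pl} {R L : ℝ} (hν : Bd R L ν) (a b : ℕ) (k : ℤ)
    {f : ℕ → Pl → ℝ} {h : Pl → ℝ} {K : ℝ} (hf : ∀ m, BB (f m)) (hK : ∀ m x, |f m x| ≤ K)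
    (hlim : ∀ᵐ x, Tendsto (fun m => f m x) atTop (𝓝 (h x))) (x : Pl) :
    Tendsto (fun m => Dk ν a b k (f m) x) atTop (𝓝 (Dk ν a b k h x)) := by
  obtain ⟨B1, B2, B3, B4, B5, B6, B7⟩ := hBBC
  have : IsFiniteMeasure ν := ⟨lt_of_le_of_lt hν.2 ENNReal.ofReal_lt_top⟩
  unfold Dk Av
  apply tendsto_integral_of_dominated_convergence (fun _ => K + K)
  · intro m
    have h1 := (B1 _ _ (B2 (f m) ((2 : ℝ) ^ (k - (a : ℤ))) (hf m))
      (B2 (f m) ((2 : ℝ) ^ (k - (b : ℤ))) (hf m))).1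
    have h2 : Measurable fun y : Pl => x - (2 : ℝ) ^ k • y := by fun_prop
    exact (h1.comp h2).aestronglyMeasurable
  · exact integrable_const _
  · intro m
    refine Eventually.of_forall fun y => ?_
    rw [Real.norm_eq_abs]
    refine (abs_sub _ _).trans (add_le_add (B4 _ _ _ (hK m) _) (B4 _ _ _ (hK m) _))
  · refine Eventually.of_forall fun y => ?_
    exact (sm_tendsto (by positivity) (fun m => (hf m).1) hK hlim _).sub
      (sm_tendsto (by positivity) (fun m => (hf m).1) hK hlim _)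

theorem enorm_dk_le (hBBC : StBBC) {ν : Measure Pl} {R L : ℝ} (hν : Bd R L ν) (a c : ℕ) (k : ℤ)
    {b : ℕ → Pl → ℝ} {h : Pl → ℝ} {K : ℝ} (hb : ∀ i, BB (b i))
    (hK : ∀ m x, |∑ i ∈ Finset.range m, b i x| ≤ K)
    (hlim : ∀ᵐ x, Tendsto (fun m => ∑ i ∈ Finset.range m, b i x) atTop (𝓝 (h x))) (x : Pl) :
    ‖Dk ν a c k h x‖ₑ ≤ ∑' i, ‖Dk ν a c k (b i) x‖ₑ := by
  have h1 := dk_tendsto hBBC hν a c k (fun m => bb_sum hb m) hK hlim x
  refine le_of_tendsto h1.enorm (Eventually.of_forall fun m => ?_)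
  rw [dk_sum hBBC hν a c k hb m x]
  exact (enorm_sum_le _ _).trans (ENNReal.sum_le_tsum _)

theorem meas_dk (hBBC : StBBC) {ν : Measure Pl} {R L : ℝ} (hν : Bd R L ν) (a b : ℕ) (k : ℤ)
    {g : Pl → ℝ} (hg : BB g) : Measurable (Dk ν a b k g) := by
  obtain ⟨B1, B2, B3, B4, B5, B6, B7⟩ := hBBC
  exact (B3 ν R L _ _ hν (by positivity) (B1 _ _ (B2 _ _ hg) (B2 _ _ hg))).1

theorem hW11 (hBBC : StBBC) (hCZ : StCZ) (hHO : StHO) : StW11 := by
  intro R hR
  obtain ⟨C₁, hC₁, hCZ⟩ := hCZ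
  obtain ⟨C₂, hC₂, hHO⟩ := hHO R hR
  refine ⟨16 + C₁ + 4 * C₂, by positivity, ?_⟩
  intro ν L A a b hν hL hA hba hL2 g hg hg0 lam hlam
  set I : ℝ≥0∞ := ∫⁻ x, ‖g x‖ₑ with hI
  obtain ⟨G, bb, c, r, hG, hGb, hGI, hb, hdis, ⟨K, hK⟩, hae, hsum, hvol⟩ :=
    hCZ g hg hg0 (lam / A) (by positivity)
  have hbB : ∀ i, BB (bb i) := fun i => (hb i).1
  have hK0 : 0 ≤ K := le_trans (abs_nonneg _) (hK 0 0)
  set h : Pl → ℝ := fun x => g x - G x with hh
  have hhB : BB h := hBBC.1 _ _ hg hG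
  -- at most one of the functions is not zero
  have hone : ∀ m x, ∀ i ∈ Finset.range m, (∀ j, j ≠ i → bb j x = 0) →
      ∑ i ∈ Finset.range m, bb i x = bb i x := by
    intro m x i hi hj
    exact Finset.sum_eq_single_of_mem i hi fun j _ hji => hj j hji
  have hKs : ∀ m x, |∑ i ∈ Finset.range m, bb i x| ≤ K := by
    intro m x
    by_cases hz : ∀ i ∈ Finset.range m, bb i x = 0
    · rw [Finset.sum_eq_zero hz, abs_zero]; exact hK0
    · push Not at hz
      obtain ⟨i, hi, hix⟩ := hz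
      rw [hone m x i hi fun j hj => (hdis j i hj x).resolve_right hix]
      exact hK i x
  have hlim : ∀ᵐ x, Tendsto (fun m => ∑ i ∈ Finset.range m, bb i x) atTop (𝓝 (h x)) := by
    filter_upwards [hae] with x hx
    rcases hx with ⟨h0, hgG⟩ | ⟨i, hgi, hj⟩
    · have : (fun m => ∑ i ∈ Finset.range m, bb i x) = fun _ => h x := by
        funext m
        rw [Finset.sum_eq_zero fun i _ => h0 i, hh]
        simp [hgG]
      rw [this]; exact tendsto_const_nhds
    · refine tendsto_const_nhds.congr' ?_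
      filter_upwards [eventually_gt_atTop i] with m hm
      rw [hone m x i (Finset.mem_range.2 hm) hj, hh]
      simp [hgi]
  -- the sets
  set U : Set Pl := ⋃ i, Metric.closedBall (c i) (2 * r i) with hU
  have hUm : MeasurableSet U := MeasurableSet.iUnion fun i => measurableSet_closedBall
  set S : Pl → ℝ≥0∞ := fun x => ∑' i, ∑' k : ℤ, ‖Dk ν a b k (bb i) x‖ₑ with hS
  set Q : Pl → ℝ≥0∞ := fun x => ∑' k : ℤ, ‖Dk ν a b k G x‖ₑ ^ 2 with hQ
  have hSm : Measurable S := by
    refine Measurable.ennreal_tsum fun i => Measurable.ennreal_tsum fun k => ?_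
    exact (meas_dk hBBC hν a b k (hbB i)).enorm
  have hQm : Measurable Q := by
    refine Measurable.ennreal_tsum fun k => ?_
    exact (meas_dk hBBC hν a b k hG).enorm.pow_const 2
  have hl2 : (0 : ℝ) < lam / 2 := by positivity
  have hsub : {x | ENNReal.ofReal lam < ⨆ k : ℤ, ‖Dk ν a b k g x‖ₑ} ⊆
      {x | ENNReal.ofReal (lam / 2) ^ 2 ≤ Q x} ∪ (U ∪ {x | ENNReal.ofReal (lam / 2) ≤ S x} ∩ Uᶜ) := by
    intro x hx
    rw [mem_setOf_eq, lt_iSup_iff] at hx
    obtain ⟨k, hk⟩ := hx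
    have hadd : Dk ν a b k g x = Dk ν a b k G x + Dk ν a b k h x := by
      rw [← dk_add hBBC hν a b k hG hhB x]
      congr 1
      funext y; simp [hh]
    rw [hadd] at hk
    have hsplit : ENNReal.ofReal lam = ENNReal.ofReal (lam / 2) + ENNReal.ofReal (lam / 2) := by
      rw [← ENNReal.ofReal_add hl2.le hl2.le]; congr 1; ring
    by_cases h1 : ENNReal.ofReal (lam / 2) ≤ ‖Dk ν a b k G x‖ₑ
    · left
      show ENNReal.ofReal (lam / 2) ^ 2 ≤ Q x
      exact (pow_le_pow_left' h1 2).trans (ENNReal.le_tsum k)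
    · right
      by_cases hxU : x ∈ U
      · exact Or.inl hxU
      · right
        refine ⟨?_, hxU⟩
        show ENNReal.ofReal (lam / 2) ≤ S x
        have h2 : ENNReal.ofReal (lam / 2) ≤ ‖Dk ν a b k h x‖ₑ := by
          by_contra hcon
          push Not at h1 hcon
          have := (hk.trans_le (enorm_add_le _ _))
          rw [hsplit] at this
          exact absurd this (not_lt.2 (add_le_add h1.le hcon.le))
        refine h2.trans ((enorm_dk_le hBBC hν a b k hbB hKs hlim x).trans ?_)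
        exact ENNReal.tsum_le_tsum fun i => ENNReal.le_tsum k
  -- the first part
  have hne : ENNReal.ofReal (lam / 2) ≠ 0 := by simpa using hl2
  have hnt : ENNReal.ofReal (lam / 2) ≠ ∞ := ENNReal.ofReal_ne_top
  have p1 : volume {x | ENNReal.ofReal (lam / 2) ^ 2 ≤ Q x} ≤
      ENNReal.ofReal (16 * A / lam) * I := by
    have e1 : ENNReal.ofReal (lam / 2) ^ 2 * volume {x | ENNReal.ofReal (lam / 2) ^ 2 ≤ Q x} ≤
        ∫⁻ x, Q x := mul_meas_ge_le_lintegral hQm _
    have e2 : ∫⁻ x, Q x ≤ ENNReal.ofReal (A ^ 2) * (ENNReal.ofReal (4 * (lam / A)) * I) := by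
      rw [hQ, lintegral_tsum fun k => ((meas_dk hBBC hν a b k hG).enorm.pow_const 2).aemeasurable]
      refine (hL2 G hG).trans (mul_le_mul_right ?_ _)
      calc ∫⁻ x, ‖G x‖ₑ ^ 2 ≤ ∫⁻ x, ENNReal.ofReal (4 * (lam / A)) * ‖G x‖ₑ := by
            refine lintegral_mono fun x => ?_
            show ‖G x‖ₑ ^ 2 ≤ ENNReal.ofReal (4 * (lam / A)) * ‖G x‖ₑ
            rw [sq]
            refine mul_le_mul_left ?_ _
            rw [Real.enorm_eq_ofReal (hGb x).1]
            exact ENNReal.ofReal_le_ofReal (hGb x).2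
        _ = ENNReal.ofReal (4 * (lam / A)) * ∫⁻ x, ‖G x‖ₑ :=
            lintegral_const_mul _ hG.1.enorm
        _ ≤ _ := mul_le_mul_right hGI _
    have e3 := e1.trans e2
    have e4 : ENNReal.ofReal (A ^ 2) * (ENNReal.ofReal (4 * (lam / A)) * I) =
        ENNReal.ofReal (lam / 2) ^ 2 * (ENNReal.ofReal (16 * A / lam) * I) := by
      rw [← mul_assoc, ← mul_assoc, ← ENNReal.ofReal_mul (by positivity),
        ← ENNReal.ofReal_pow hl2.le, ← ENNReal.ofReal_mul (by positivity)]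
      congr 2
      field_simp
      ring
    rw [e4] at e3
    exact (ENNReal.mul_le_mul_iff_right (pow_ne_zero 2 hne) (ENNReal.pow_ne_top hnt)).1 e3
  have p2 : volume U ≤ ENNReal.ofReal (C₁ * A / lam) * I := by
    refine (measure_iUnion_le _).trans (hvol.trans (le_of_eq ?_))
    congr 2
    field_simp
  have p3 : volume ({x | ENNReal.ofReal (lam / 2) ≤ S x} ∩ Uᶜ) ≤
      ENNReal.ofReal (4 * C₂ * (L * (a + 1)) / lam) * I := by
    have e1 : ENNReal.ofReal (lam / 2) * volume ({x | ENNReal.ofReal (lam / 2) ≤ S x} ∩ Uᶜ) ≤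
        ∫⁻ x in Uᶜ, S x := by
      rw [← Measure.restrict_apply (measurableSet_le measurable_const hSm)]
      exact mul_meas_ge_le_lintegral hSm _
    have e2 : ∫⁻ x in Uᶜ, S x ≤ ENNReal.ofReal (C₂ * L * (a + 1)) * (2 * I) := by
      have e5 : ∫⁻ x in Uᶜ, S x = ∑' i, ∑' k : ℤ, ∫⁻ x in Uᶜ, ‖Dk ν a b k (bb i) x‖ₑ := by
        rw [hS, lintegral_tsum fun i => (Measurable.ennreal_tsum fun k =>
          (meas_dk hBBC hν a b k (hbB i)).enorm).aemeasurable]
        refine tsum_congr fun i => ?_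
        exact lintegral_tsum fun k => ((meas_dk hBBC hν a b k (hbB i)).enorm).aemeasurable
      rw [e5]
      have e6 : ∀ i, ∑' k : ℤ, ∫⁻ x in Uᶜ, ‖Dk ν a b k (bb i) x‖ₑ ≤
          ENNReal.ofReal (C₂ * L * (a + 1)) * ∫⁻ x, ‖bb i x‖ₑ := by
        intro i
        obtain ⟨-, hr0, hri, hsupp, hint⟩ := hb i
        rcases hri with hri | hz
        · refine (ENNReal.tsum_le_tsum fun k => ?_).trans
            (hHO ν L hν hL (bb i) (c i) (r i) a b (hbB i) hri hba hsupp hint)
          refine lintegral_mono_set (compl_subset_compl.2 ?_)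
          exact subset_iUnion (fun i => Metric.closedBall (c i) (2 * r i)) i
        · have : ∀ k : ℤ, ∫⁻ x in Uᶜ, ‖Dk ν a b k (bb i) x‖ₑ = 0 := by
            intro k
            simp [dk_zero' ν a b k (bb i) hz]
          simp [this]
      calc ∑' i, ∑' k : ℤ, ∫⁻ x in Uᶜ, ‖Dk ν a b k (bb i) x‖ₑ
          ≤ ∑' i, ENNReal.ofReal (C₂ * L * (a + 1)) * ∫⁻ x, ‖bb i x‖ₑ :=
            ENNReal.tsum_le_tsum e6
        _ = ENNReal.ofReal (C₂ * L * (a + 1)) * ∑' i, ∫⁻ x, ‖bb i x‖ₑ := ENNReal.tsum_mul_left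
        _ ≤ _ := mul_le_mul_right hsum _
    have e3 := e1.trans e2
    have e4 : ENNReal.ofReal (C₂ * L * (a + 1)) * (2 * I) =
        ENNReal.ofReal (lam / 2) * (ENNReal.ofReal (4 * C₂ * (L * (a + 1)) / lam) * I) := by
      have h2 : (2 : ℝ≥0∞) = ENNReal.ofReal 2 := by simp
      rw [h2, ← mul_assoc, ← mul_assoc, ← ENNReal.ofReal_mul (by positivity),
        ← ENNReal.ofReal_mul (by positivity)]
      congr 2
      field_simp
      ring
    rw [e4] at e3
    exact (ENNReal.mul_le_mul_iff_right hne hnt).1 e3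
  refine (measure_mono hsub).trans ((measure_union_le _ _).trans ?_)
  refine (add_le_add p1 ((measure_union_le _ _).trans (add_le_add p2 p3))).trans ?_
  rw [← add_mul, ← add_mul, ← ENNReal.ofReal_add (by positivity) (by positivity),
    ← ENNReal.ofReal_add (by positivity) (by positivity)]
  refine mul_le_mul_left (ENNReal.ofReal_le_ofReal ?_) _
  rw [← add_div, ← add_div]
  refine div_le_div_of_nonneg_right ?_ hlam.le
  have hB : 0 ≤ L * ((a : ℝ) + 1) := by positivity
  nlinarith [mul_nonneg hC₂.le hA.le, mul_nonneg hC₁.le hB, hB]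

end Pool.Agent.Helper81.LM
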