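import Pool.Agent.Helper98.LM.St

/-! # Project LM (MP_d57c14_nt), module MO2: the second moment -/

set_option autoImplicit false

namespace Pool.Agent.Helper81.LM

open Finset
open Pool.Agent.Helper98.LM

private theorem sq_sum (s I : Finset ℕ) (A : ℕ → ℕ → Prop) [∀ j m, Decidable (A j m)] :
    ∑ m ∈ s, ((((I.filter (fun j => A j m)).card : ℕ) : ℝ)) ^ 2 =
      (∑ m ∈ s, ((((I.filter (fun j => A j m)).card : ℕ) : ℝ))) +
      ∑ j' ∈ I, ∑ j ∈ I.erase j', ((((s.filter (fun m => A j m ∧ A j' m)).card : ℕ) : ℝ)) := by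
  have e1 : ∀ m, ((((I.filter (fun j => A j m)).card : ℕ) : ℝ)) =
      ∑ j ∈ I, (if A j m then (1 : ℝ) else 0) := by
    intro m
    rw [Finset.card_filter, Nat.cast_sum]
    exact Finset.sum_congr rfl fun j _ => by split_ifs <;> simp
  have e2 : ∀ j j', ((((s.filter (fun m => A j m ∧ A j' m)).card : ℕ) : ℝ)) =
      ∑ m ∈ s, (if A j m then (1 : ℝ) else 0) * (if A j' m then (1 : ℝ) else 0) := by
    intro j j'
    rw [Finset.card_filter, Nat.cast_sum]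
    refine Finset.sum_congr rfl fun m _ => ?_
    by_cases h1 : A j m <;> by_cases h2 : A j' m <;> simp [h1, h2]
  simp only [e1, e2]
  have e3 : ∀ m, (∑ j ∈ I, (if A j m then (1 : ℝ) else 0)) ^ 2 =
      (∑ j ∈ I, (if A j m then (1 : ℝ) else 0)) +
      ∑ j' ∈ I, ∑ j ∈ I.erase j', (if A j m then (1 : ℝ) else 0) * (if A j' m then (1 : ℝ) else 0) := by
    intro m
    rw [pow_two, Finset.mul_sum, ← Finset.sum_add_distrib]
    refine Finset.sum_congr rfl fun j' hj' => ?_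
    rw [← Finset.sum_mul, ← Finset.add_sum_erase I (fun j => if A j m then (1 : ℝ) else 0) hj',
      add_mul]
    congr 1
    split_ifs <;> simp
  simp only [e3, Finset.sum_add_distrib]
  congr 1
  rw [Finset.sum_comm]
  refine Finset.sum_congr rfl fun j' _ => ?_
  rw [Finset.sum_comm]

/-- Module MO2. -/
theorem hMO2 (h1 : StMO1) (hP : StPR2) (hG : StGAB) : StMO2 := by
  intro ε hε hε1
  obtain ⟨B₁, p₁, hp₁, H1⟩ := h1 1 one_pos le_rfl
  obtain ⟨B₂, H2⟩ := hP (ε / 8) (by positivity)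
  obtain ⟨p₂, H3⟩ := hG (ε / 8) (by positivity)
  refine ⟨max B₁ B₂, max p₁ p₂, le_trans hp₁ (le_max_left _ _), ?_⟩
  intro p P hp hP1 hl
  obtain ⟨J₁, hJ₁, H1'⟩ := H1 p P (le_trans (le_max_left _ _) hp) hP1 hl
  obtain ⟨J₂, H3'⟩ := H3 p P (le_trans (le_max_right _ _) hp) hP1 hl
  refine ⟨max J₁ J₂, le_trans hJ₁ (le_max_left _ _), ?_⟩
  intro J a r w M hJ hr hw
  have hJ1 : J₁ ≤ J := le_trans (le_max_left _ _) hJ
  have hJ2 : J₂ ≤ J := le_trans (le_max_right _ _) hJ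
  have hp7 : 7 ≤ p := le_trans hp₁ (le_trans (le_max_left _ _) hp)
  have F1 := (H1' J a r w M hJ1 hr hw).2
  obtain ⟨F2, F3⟩ := H3' J r w hJ2 hr
  obtain ⟨V, hV⟩ : ∃ V, V = VV p w := ⟨_, rfl⟩
  rw [← hV] at F1 ⊢
  obtain ⟨W, hW⟩ : ∃ W : ℝ, W = (w : ℝ) ^ max B₁ B₂ := ⟨_, rfl⟩
  have hw1 : (1 : ℝ) ≤ w := by exact_mod_cast le_trans (by norm_num : 1 ≤ 2) hw
  have hW1 : (w : ℝ) ^ B₁ ≤ W := by
    rw [hW]; exact pow_le_pow_right₀ hw1 (le_max_left _ _)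
  have hW2 : (w : ℝ) ^ B₂ ≤ W := by
    rw [hW]; exact pow_le_pow_right₀ hw1 (le_max_right _ _)
  have hW0 : 0 ≤ W := by rw [hW]; positivity
  rw [← hW]
  have hJr : (1 : ℝ) ≤ J := by exact_mod_cast le_trans hJ₁ hJ1
  have hM0 : (0 : ℝ) ≤ M := Nat.cast_nonneg M
  -- one pair
  obtain ⟨g, hg⟩ : ∃ g : ℕ → ℝ, g = fun j' =>
      ∏ l ∈ (QQ p w).filter (fun l => l ∣ r + P * j'), (1 + 8 / (l : ℝ)) := ⟨_, rfl⟩
  obtain ⟨h, hh⟩ : ∃ h : ℕ → ℕ → ℝ, h = fun j j' =>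
      ∏ l ∈ (QQ p w).filter (fun l => l ∣ DD (r + P * j) (r + P * j')), (1 + 8 / (l : ℝ)) := ⟨_, rfl⟩
  have hg0 : ∀ j', 0 ≤ g j' := fun j' => by
    rw [hg]; exact Finset.prod_nonneg fun l _ => by positivity
  have hF2 : ∑ j ∈ Icc 1 J, g j ≤ (1 + ε / 8) * J := by rw [hg]; exact F2
  have hF3 : ∀ j' ∈ Icc 1 J, ∑ j ∈ (Icc 1 J).erase j', h j j' ≤ (1 + ε / 8) * J := by
    intro j' hj'
    rw [hh]; exact F3 j' hj'
  have hpair : ∀ j j' : ℕ, ((((Icc 1 M).filter (fun m : ℕ =>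
      (∀ l ∈ QQ p w, ¬ (l : ℤ) ∣ fz ((a : ℤ) + P * m) ((r : ℤ) + P * j)) ∧
      ∀ l ∈ QQ p w, ¬ (l : ℤ) ∣ fz ((a : ℤ) + P * m) ((r : ℤ) + P * j'))).card : ℕ) : ℝ) ≤
      (1 + ε / 8) * (M * V ^ 2 * (g j' * h j j')) + W := by
    intro j j'
    have e := H2 p P a (r + P * j) (r + P * j') w M hp7 hl hw
    have c1 : (((r + P * j : ℕ) : ℕ) : ℤ) = (r : ℤ) + P * j := by push_cast; ring
    have c2 : (((r + P * j' : ℕ) : ℕ) : ℤ) = (r : ℤ) + P * j' := by push_cast; ring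
    rw [c1, c2, ← hV] at e
    refine e.trans ?_
    rw [hg, hh]
    linarith
  have key := sq_sum (Icc 1 M) (Icc 1 J) (fun j m =>
    ∀ l ∈ QQ p w, ¬ (l : ℤ) ∣ fz ((a : ℤ) + P * m) ((r : ℤ) + P * j))
  have hXX : ∀ m, XX p w P a r J m = ((Icc 1 J).filter (fun j : ℕ =>
    ∀ l ∈ QQ p w, ¬ (l : ℤ) ∣ fz ((a : ℤ) + P * m) ((r : ℤ) + P * j))).card := fun m => rfl
  simp only [← hXX] at key
  rw [key]
  have hC : 0 ≤ (1 + ε / 8) * (M * V ^ 2) := by positivity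
  have hin : ∀ j' ∈ Icc 1 J, ∑ j ∈ (Icc 1 J).erase j', ((((Icc 1 M).filter (fun m : ℕ =>
      (∀ l ∈ QQ p w, ¬ (l : ℤ) ∣ fz ((a : ℤ) + P * m) ((r : ℤ) + P * j)) ∧
      ∀ l ∈ QQ p w, ¬ (l : ℤ) ∣ fz ((a : ℤ) + P * m) ((r : ℤ) + P * j'))).card : ℕ) : ℝ) ≤
      (1 + ε / 8) * (M * V ^ 2) * ((1 + ε / 8) * J) * g j' + J * W := by
    intro j' hj'
    have s1 := Finset.sum_le_sum fun j (_ : j ∈ (Icc 1 J).erase j') => hpair j j'
    refine s1.trans ?_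
    rw [Finset.sum_add_distrib]
    have s2 : ∑ j ∈ (Icc 1 J).erase j', (1 + ε / 8) * (M * V ^ 2 * (g j' * h j j')) =
        (1 + ε / 8) * (M * V ^ 2) * g j' * ∑ j ∈ (Icc 1 J).erase j', h j j' := by
      rw [Finset.mul_sum]
      exact Finset.sum_congr rfl fun j _ => by ring
    have s3 : ∑ _j ∈ (Icc 1 J).erase j', W ≤ J * W := by
      rw [Finset.sum_const, nsmul_eq_mul]
      refine mul_le_mul_of_nonneg_right ?_ hW0
      have : ((Icc 1 J).erase j').card ≤ J := by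
        refine (Finset.card_erase_le).trans ?_
        rw [Nat.card_Icc]; omega
      exact_mod_cast this
    have s4 := mul_le_mul_of_nonneg_left (hF3 j' hj') (mul_nonneg hC (hg0 j'))
    rw [s2]
    refine (add_le_add s4 s3).trans (le_of_eq ?_)
    ring
  have hsum := Finset.sum_le_sum hin
  rw [Finset.sum_add_distrib, ← Finset.mul_sum, Finset.sum_const, Nat.card_Icc, nsmul_eq_mul] at hsum
  have e4 : ((J + 1 - 1 : ℕ) : ℝ) = J := by rw [Nat.add_sub_cancel]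
  rw [e4] at hsum
  have s5 := mul_le_mul_of_nonneg_left hF2
    (mul_nonneg hC (by positivity : (0 : ℝ) ≤ (1 + ε / 8) * J))
  have s6 : (1 + ε / 8) ^ 3 ≤ 1 + ε := by nlinarith [sq_nonneg ε, mul_nonneg hε.le hε.le]
  have s7 : (1 + ε / 8) ^ 3 * (J ^ 2 * M * V ^ 2) ≤ (1 + ε) * (J ^ 2 * M * V ^ 2) :=
    mul_le_mul_of_nonneg_right s6 (by positivity)
  have s8 : (1 + ε / 8) * (M * V ^ 2) * ((1 + ε / 8) * J) * ((1 + ε / 8) * J) =
      (1 + ε / 8) ^ 3 * (J ^ 2 * M * V ^ 2) := by ring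
  have s9 : (J : ℝ) * (w : ℝ) ^ B₁ ≤ J ^ 2 * W := by
    have t1 : (J : ℝ) * (w : ℝ) ^ B₁ ≤ J * W := mul_le_mul_of_nonneg_left hW1 (by positivity)
    have t2 : (J : ℝ) * W ≤ J ^ 2 * W := by
      refine mul_le_mul_of_nonneg_right ?_ hW0
      rw [pow_two]
      exact le_mul_of_one_le_left (by positivity) hJr
    exact t1.trans t2
  have s10 : (J : ℝ) * (J * W) = J ^ 2 * W := by ring
  rw [s8] at s5
  rw [s10] at hsum
  linarith

end Pool.Agent.Helper81.LM
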