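import Pool.Agent.Helper98.LM.St2

/-! # Project LM (MP_d57c14_nt), module NSV: the sieve for one `k` -/

set_option autoImplicit false

namespace Pool.Agent.Helper81.LM

open Finset
open Pool.Agent.Helper98.LM
open Pool.Agent.Helper15.AB (StMT)
open Pool.Agent.Helper30.LQ (StMR4)
open Pool.Agent.Helper30.LK (StMR3)

private theorem mem_Q1 {w l : ℕ} (h : l ∈ Q1 w) : l.Prime ∧ l % 3 = 1 ∧ 7 < l ∧ l ≤ w := by
  unfold Q1 at h
  obtain ⟨h1, h2⟩ := mem_filter.1 h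
  obtain ⟨h3, h4⟩ := mem_Ioc.1 h1
  exact ⟨h2.1, h2.2, h3, h4⟩

private theorem ndvd_P3 (p l : ℕ) (hl : l.Prime) (h3 : l % 3 = 1) : ¬ l ∣ P3 p := by
  intro h
  unfold P3 at h
  obtain ⟨q, hq, hlq⟩ := (Prime.dvd_finset_prod_iff hl.prime _).1 h
  obtain ⟨-, hq1, hq2⟩ := mem_filter.1 hq
  have := (Nat.prime_dvd_prime_iff_eq hl hq1).1 hlq
  omega

private theorem mod_fz (P a k l m : ℕ) :
    (l : ℤ) ∣ fz ((a : ℤ) + P * ((m % l : ℕ) : ℤ)) k ↔ (l : ℤ) ∣ fz ((a : ℤ) + P * m) k := by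
  have h : (l : ℤ) ∣ fz ((a : ℤ) + P * m) k - fz ((a : ℤ) + P * ((m % l : ℕ) : ℤ)) k := by
    have h1 : (m : ℤ) = l * ((m / l : ℕ) : ℤ) + ((m % l : ℕ) : ℤ) := by
      exact_mod_cast (Nat.div_add_mod m l).symm
    generalize ((m % l : ℕ) : ℤ) = u at h1 ⊢
    generalize ((m / l : ℕ) : ℤ) = v at h1 ⊢
    rw [h1]
    refine ⟨P * v * (2 * (a + P * u) + P * (l * v) - k), ?_⟩
    unfold fz
    ring
  exact ⟨fun h2 => by simpa using dvd_add h h2, fun h2 => by simpa using dvd_sub h2 h⟩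

private theorem mem_SS (P a k l m : ℕ) (hl : 0 < l) :
    m % l ∈ SS P a k l ↔ (l : ℤ) ∣ fz ((a : ℤ) + P * m) k := by
  unfold SS
  rw [mem_filter, mem_range, mod_fz]
  exact ⟨fun h => h.2, fun h => ⟨Nat.mod_lt _ hl, h⟩⟩

private theorem point (hL : StLOC) (P a k l : ℕ) (hl : l.Prime) (h3 : l % 3 = 1) (h7 : 7 < l)
    (hP : ¬ l ∣ P) :
    1 - ((SS P a k l).card : ℝ) / l ≤
      (1 - 2 * (1 / (l : ℝ))) * (if l ∣ k then (1 + 8 / (l : ℝ)) else 1) := by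
  obtain ⟨-, -, h4, -⟩ := hL P a l hl (by omega) hP
  have hl0 : (8 : ℝ) ≤ l := by exact_mod_cast h7
  have hl1 : (0 : ℝ) < l := by linarith
  by_cases c1 : l ∣ k
  · rw [if_pos c1]
    have h6 : (0 : ℝ) ≤ ((SS P a k l).card : ℝ) / l := by positivity
    have hx : (1 : ℝ) / l ≤ 1 / 8 := one_div_le_one_div_of_le (by norm_num) hl0
    have hx0 : (0 : ℝ) < 1 / l := by positivity
    have e1 : (8 : ℝ) / l = 8 * (1 / l) := by ring
    rw [e1]
    generalize (1 : ℝ) / l = x at hx hx0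
    have h8 : 0 ≤ x * (6 - 16 * x) := mul_nonneg hx0.le (by linarith)
    have e2 : (1 - 2 * x) * (1 + 8 * x) = 1 + x * (6 - 16 * x) := by ring
    rw [e2]
    linarith
  · rw [if_neg c1, mul_one, h4 k c1]
    unfold rh
    rw [if_pos h3]
    push_cast
    apply le_of_eq
    ring

/-- Module NSV. -/
theorem hNSV (hS : StSV) (hL : StLOC) (h3 : StMR3) : StNSV := by
  obtain ⟨B, hB⟩ := hS 1 one_pos
  obtain ⟨C, hC, hM⟩ := h3
  refine ⟨2 * Real.exp (2 / 7 + 2 * C), by positivity, B, fun p w k M hw => ?_⟩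
  have hnP : ∀ l ∈ Q1 w, ¬ l ∣ P3 p := fun l hl => ndvd_P3 p l (mem_Q1 hl).1 (mem_Q1 hl).2.1
  have hc2 : ∀ l ∈ Q1 w, (SS (P3 p) 0 k l).card ≤ 2 := by
    intro l hl
    obtain ⟨h1, -, -, -⟩ := hL (P3 p) 0 l (mem_Q1 hl).1 (by have := (mem_Q1 hl).2.2.1; omega)
      (hnP l hl)
    exact h1 k
  have key := hB w M (by omega) (Q1 w) (fun l => SS (P3 p) 0 k l)
    (fun l hl => ⟨(mem_Q1 hl).1, (mem_Q1 hl).2.2.1, (mem_Q1 hl).2.2.2⟩)
    (fun l hl => ⟨fun s hs => by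
      unfold SS at hs
      exact mem_range.1 (mem_filter.1 hs).1, (hc2 l hl).trans (by norm_num)⟩)
  have hset : (Icc 1 M).filter (fun m : ℕ => ∀ l ∈ Q1 w, ¬ (l : ℤ) ∣ fz ((P3 p : ℤ) * m) k) =
      (Icc 1 M).filter (fun m : ℕ => ∀ l ∈ Q1 w, m % l ∉ SS (P3 p) 0 k l) := by
    refine filter_congr fun m _ => ?_
    refine forall₂_congr fun l hl => ?_
    rw [mem_SS _ _ _ _ _ (mem_Q1 hl).1.pos, Nat.cast_zero, zero_add]
  rw [hset]
  -- the product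
  have hprod : ∏ l ∈ Q1 w, (1 - ((SS (P3 p) 0 k l).card : ℝ) / l) ≤
      (∏ l ∈ Q1 w, (1 - 2 * (1 / (l : ℝ)))) *
      ∏ l ∈ (Q1 w).filter (fun l => l ∣ k), (1 + 8 / (l : ℝ)) := by
    rw [prod_filter, ← prod_mul_distrib]
    refine prod_le_prod (fun l hl => ?_) (fun l hl => point hL (P3 p) 0 k l (mem_Q1 hl).1
      (mem_Q1 hl).2.1 (mem_Q1 hl).2.2.1 (hnP l hl))
    have h1 : (((SS (P3 p) 0 k l).card : ℕ) : ℝ) ≤ 2 := by exact_mod_cast hc2 l hl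
    have h2 : (8 : ℝ) ≤ l := by exact_mod_cast (mem_Q1 hl).2.2.1
    have h3 : (0 : ℝ) < l := by linarith
    rw [sub_nonneg, div_le_one h3]
    linarith
  have hexp : ∏ l ∈ Q1 w, (1 - 2 * (1 / (l : ℝ))) ≤ Real.exp (2 / 7 + 2 * C) / Real.log w := by
    have h1 : ∏ l ∈ Q1 w, (1 - 2 * (1 / (l : ℝ))) ≤ ∏ l ∈ Q1 w, Real.exp (-(2 * (1 / (l : ℝ)))) := by
      refine prod_le_prod (fun l hl => ?_) (fun l _ => ?_)
      · have h2 : (8 : ℝ) ≤ l := by exact_mod_cast (mem_Q1 hl).2.2.1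
        have hx : (1 : ℝ) / l ≤ 1 / 8 := one_div_le_one_div_of_le (by norm_num) h2
        linarith
      · have := Real.add_one_le_exp (-(2 * (1 / (l : ℝ))))
        linarith
    refine h1.trans ?_
    rw [← Real.exp_sum, sum_neg_distrib, ← mul_sum]
    have hw3 : (3 : ℝ) ≤ w := by exact_mod_cast hw
    have h2 := (hM w hw3).1
    rw [Nat.floor_natCast] at h2
    have h4 : ∑ l ∈ (Icc 1 w).filter (fun l => l.Prime ∧ l % 3 = 1), (1 : ℝ) / l ≤
        ∑ l ∈ insert 7 (Q1 w), (1 : ℝ) / l := by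
      refine sum_le_sum_of_subset_of_nonneg ?_ (fun _ _ _ => by positivity)
      intro l hl
      obtain ⟨hl1, hl2, hl3⟩ := mem_filter.1 hl
      rw [mem_Icc] at hl1
      by_cases h7 : 7 < l
      · refine mem_insert_of_mem ?_
        unfold Q1
        exact mem_filter.2 ⟨mem_Ioc.2 ⟨h7, hl1.2⟩, hl2, hl3⟩
      · have h8 : l = 1 ∨ l = 4 ∨ l = 7 := by omega
        rcases h8 with h8 | h8 | h8
        · rw [h8] at hl2; exact absurd hl2 (by norm_num)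
        · rw [h8] at hl2; exact absurd hl2 (by norm_num)
        · rw [h8]; exact mem_insert_self _ _
    have h5 : (7 : ℕ) ∉ Q1 w := fun h => by have := (mem_Q1 h).2.2.1; omega
    rw [sum_insert h5] at h4
    have hlog : 0 < Real.log w := Real.log_pos (by linarith)
    have h6 : -(2 * ∑ l ∈ Q1 w, (1 : ℝ) / l) ≤ 2 / 7 + 2 * C - Real.log (Real.log w) := by
      push_cast at h4
      linarith
    refine (Real.exp_le_exp.2 h6).trans (le_of_eq ?_)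
    rw [Real.exp_sub, Real.exp_log hlog]
  have hg : (0 : ℝ) ≤ ∏ l ∈ (Q1 w).filter (fun l => l ∣ k), (1 + 8 / (l : ℝ)) :=
    prod_nonneg fun l _ => by positivity
  have hM0 : (0 : ℝ) ≤ M := Nat.cast_nonneg M
  have h1 := (abs_le.1 key).2
  have h2 := mul_le_mul_of_nonneg_left (hprod.trans (mul_le_mul_of_nonneg_right hexp hg)) hM0
  have e : 2 * Real.exp (2 / 7 + 2 * C) * (M / Real.log w *
      ∏ l ∈ (Q1 w).filter (fun l => l ∣ k), (1 + 8 / (l : ℝ))) =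
      2 * (M * (Real.exp (2 / 7 + 2 * C) / Real.log w *
      ∏ l ∈ (Q1 w).filter (fun l => l ∣ k), (1 + 8 / (l : ℝ)))) := by ring
  rw [e]
  linarith

end Pool.Agent.Helper81.LM
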